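import Mathlib

/-! # The rational Ehrhart numerator of the odd cyclic block polytope is not always γ-nonnegative -/

namespace Pool.Agent.Results.MP_308823_co.NotGamma

open PowerSeries

/-- the cyclic block polytope, with `m` blocks of size `a` -/
def Cyc (a m : ℕ) : Set (ZMod m → Fin a → ℝ) :=
  {x | (∀ i j, 0 ≤ x i j) ∧ ∀ i : ZMod m, (∑ j, x i j) + (∑ j, x (i + 1) j) ≤ 1}

/-- the number of lattice points in the `q`-th dilate -/
noncomputable def L (a m q : ℕ) : ℕ :=
  Set.ncard {z : ZMod m → Fin a → ℤ | ∃ x ∈ Cyc a m, ∀ i j, (z i j : ℝ) = q * x i j}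

/-- the rational Ehrhart numerator `(1 - z^2)^(am+1) * ∑ L(q) z^q` -/
noncomputable def h (a m : ℕ) : PowerSeries ℝ :=
  (1 - X ^ 2) ^ (a * m + 1) * PowerSeries.mk (fun q => (L a m q : ℝ))

/-- a power series is a γ-nonnegative polynomial (with respect to some centre `N / 2`) -/
def GammaNonneg (f : PowerSeries ℝ) : Prop :=
  ∃ (N : ℕ) (γ : ℕ → ℝ), (∀ j, 0 ≤ γ j) ∧
    f = ∑ j ∈ Finset.range (N / 2 + 1), PowerSeries.C (γ j) * (X ^ j * (1 + X) ^ (N - 2 * j))

/-- lattice points as triples of naturals -/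
def T (q : ℕ) : Finset (Fin (q + 1) × Fin (q + 1) × Fin (q + 1)) :=
  Finset.univ.filter (fun p => p.1.val + p.2.1.val ≤ q ∧ p.2.1.val + p.2.2.val ≤ q ∧
    p.2.2.val + p.1.val ≤ q)

lemma L_eq (q : ℕ) : L 1 3 q = (T q).card := by
  rw [L]
  let f : Fin (q + 1) × Fin (q + 1) × Fin (q + 1) → (ZMod 3 → Fin 1 → ℤ) := fun p i _ =>
    if i = 0 then (p.1.val : ℤ) else if i = 1 then (p.2.1.val : ℤ) else (p.2.2.val : ℤ)
  have hf : Function.Injective f := by
    intro p p' hpp
    have h0 := congrFun (congrFun hpp 0) 0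
    have h1 := congrFun (congrFun hpp 1) 0
    have h2 := congrFun (congrFun hpp 2) 0
    have e1 : (1 : ZMod 3) ≠ 0 := by decide
    have e2 : (2 : ZMod 3) ≠ 0 := by decide
    have e3 : (2 : ZMod 3) ≠ 1 := by decide
    simp only [f, if_true, e1, e2, e3, if_false, Nat.cast_inj] at h0 h1 h2
    exact Prod.ext (Fin.ext h0) (Prod.ext (Fin.ext h1) (Fin.ext h2))
  have himg : {z : ZMod 3 → Fin 1 → ℤ | ∃ x ∈ Cyc 1 3, ∀ i j, (z i j : ℝ) = q * x i j} =
      f '' (T q : Set _) := by
    ext z
    simp only [Set.mem_setOf_eq, Set.mem_image, Finset.mem_coe]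
    constructor
    · rintro ⟨x, ⟨hx0, hx1⟩, hz⟩
      have hq : (0 : ℝ) ≤ q := Nat.cast_nonneg q
      have hz0 : ∀ i, 0 ≤ z i 0 := by
        intro i
        have : (0 : ℝ) ≤ z i 0 := by rw [hz]; exact mul_nonneg hq (hx0 i 0)
        exact_mod_cast this
      have hsum : ∀ i, z i 0 + z (i + 1) 0 ≤ q := by
        intro i
        have h1 := hx1 i
        simp only [Finset.univ_unique, Fin.default_eq_zero, Finset.sum_singleton] at h1
        have : (z i 0 : ℝ) + z (i + 1) 0 ≤ q := by
          rw [hz, hz, ← mul_add]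
          calc (q : ℝ) * (x i 0 + x (i + 1) 0) ≤ q * 1 := mul_le_mul_of_nonneg_left h1 hq
            _ = q := mul_one _
        exact_mod_cast this
      have s0 := hsum 0
      have s1 := hsum 1
      have s2 := hsum 2
      have e01 : (0 : ZMod 3) + 1 = 1 := by decide
      have e12 : (1 : ZMod 3) + 1 = 2 := by decide
      have e20 : (2 : ZMod 3) + 1 = 0 := by decide
      rw [e01] at s0
      rw [e12] at s1
      rw [e20] at s2
      have p0 := hz0 0
      have p1 := hz0 1
      have p2 := hz0 2
      refine ⟨(⟨(z 0 0).toNat, by omega⟩, ⟨(z 1 0).toNat, by omega⟩, ⟨(z 2 0).toNat, by omega⟩),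
        ?_, ?_⟩
      · simp only [T, Finset.mem_filter, Finset.mem_univ, true_and]
        omega
      · funext i j
        have hj : j = 0 := Subsingleton.elim _ _
        subst hj
        have hi : i = 0 ∨ i = 1 ∨ i = 2 := by revert i; decide
        have e1 : (1 : ZMod 3) ≠ 0 := by decide
        have e2 : (2 : ZMod 3) ≠ 0 := by decide
        have e3 : (2 : ZMod 3) ≠ 1 := by decide
        rcases hi with rfl | rfl | rfl
        · simp only [f, if_true]
          exact Int.toNat_of_nonneg p0
        · simp only [f, e1, if_false, if_true]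
          exact Int.toNat_of_nonneg p1
        · simp only [f, e2, e3, if_false]
          exact Int.toNat_of_nonneg p2
    · rintro ⟨p, hp, rfl⟩
      simp only [T, Finset.mem_filter, Finset.mem_univ, true_and] at hp
      rcases Nat.eq_zero_or_pos q with hq | hq
      · subst hq
        refine ⟨0, ⟨fun i j => le_refl _, fun i => by simp⟩, ?_⟩
        intro i j
        have h1 := p.1.isLt
        have h2 := p.2.1.isLt
        have h3 := p.2.2.isLt
        simp only [f]
        split_ifs
        · have : p.1.val = 0 := by omega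
          simp [this]
        · have : p.2.1.val = 0 := by omega
          simp [this]
        · have : p.2.2.val = 0 := by omega
          simp [this]
      · have hq' : (0 : ℝ) < q := by exact_mod_cast hq
        refine ⟨fun i j => (f p i j : ℝ) / q, ⟨fun i j => ?_, fun i => ?_⟩, ?_⟩
        · apply div_nonneg _ hq'.le
          have : 0 ≤ f p i j := by simp only [f]; split_ifs <;> positivity
          exact_mod_cast this
        · simp only [Finset.univ_unique, Fin.default_eq_zero, Finset.sum_singleton]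
          rw [← add_div, div_le_one hq']
          have hi : i = 0 ∨ i = 1 ∨ i = 2 := by revert i; decide
          have e01 : (0 : ZMod 3) + 1 = 1 := by decide
          have e12 : (1 : ZMod 3) + 1 = 2 := by decide
          have e20 : (2 : ZMod 3) + 1 = 0 := by decide
          have e1 : (1 : ZMod 3) ≠ 0 := by decide
          have e2 : (2 : ZMod 3) ≠ 0 := by decide
          have e3 : (2 : ZMod 3) ≠ 1 := by decide
          rcases hi with rfl | rfl | rfl
          · rw [e01]
            simp only [f, if_true, e1, if_false]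
            exact_mod_cast hp.1
          · rw [e12]
            simp only [f, if_true, e1, e2, e3, if_false]
            exact_mod_cast hp.2.1
          · rw [e20]
            simp only [f, if_true, e2, e3, if_false]
            exact_mod_cast hp.2.2
        · intro i j
          field_simp
  rw [himg, Set.ncard_image_of_injective _ hf, Set.ncard_coe_finset]

lemma L0 : L 1 3 0 = 1 := by rw [L_eq]; decide +kernel
lemma L1 : L 1 3 1 = 4 := by rw [L_eq]; decide +kernel
lemma L3 : L 1 3 3 = 23 := by rw [L_eq]; decide +kernel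
lemma L5 : L 1 3 5 = 69 := by rw [L_eq]; decide +kernel

lemma expand : (1 - X ^ 2 : PowerSeries ℝ) ^ 4 =
    1 - 4 * X ^ 2 + 6 * X ^ 4 - 4 * X ^ 6 + X ^ 8 := by ring

lemma coeff_h (k : ℕ) : PowerSeries.coeff k (h 1 3) =
    (L 1 3 k : ℝ) - (if 2 ≤ k then 4 * (L 1 3 (k - 2) : ℝ) else 0) +
      (if 4 ≤ k then 6 * (L 1 3 (k - 4) : ℝ) else 0) -
      (if 6 ≤ k then 4 * (L 1 3 (k - 6) : ℝ) else 0) +
      (if 8 ≤ k then (L 1 3 (k - 8) : ℝ) else 0) := by
  have h4 : (4 : PowerSeries ℝ) = PowerSeries.C (4 : ℝ) := (map_ofNat (PowerSeries.C) 4).symm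
  have h6 : (6 : PowerSeries ℝ) = PowerSeries.C (6 : ℝ) := (map_ofNat (PowerSeries.C) 6).symm
  rw [h, show 1 * 3 + 1 = 4 from rfl, expand]
  simp only [add_mul, sub_mul, one_mul, map_add, map_sub, mul_assoc, h4, h6,
    PowerSeries.coeff_C_mul, PowerSeries.coeff_X_pow_mul', PowerSeries.coeff_mk]
  split_ifs <;> ring

lemma c0 : PowerSeries.coeff 0 (h 1 3) = 1 := by rw [coeff_h]; norm_num [L0]
lemma c1 : PowerSeries.coeff 1 (h 1 3) = 4 := by rw [coeff_h]; norm_num [L1]
lemma c5 : PowerSeries.coeff 5 (h 1 3) = 1 := by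
  rw [coeff_h]; norm_num [L1, L3, L5]

/-- For one-element blocks and `m = 3` the numerator is not γ-nonnegative. -/
theorem result : ¬ ∀ a m : ℕ, 1 ≤ a → 3 ≤ m → Odd m → GammaNonneg (h a m) := by
  intro hall
  obtain ⟨N, γ, hγ, hf⟩ := hall 1 3 le_rfl le_rfl (by decide)
  have hco : ∀ k, PowerSeries.coeff k (h 1 3) = ∑ j ∈ Finset.range (N / 2 + 1),
      γ j * (if j ≤ k then ((N - 2 * j).choose (k - j) : ℝ) else 0) := by
    intro k
    rw [hf, map_sum]
    refine Finset.sum_congr rfl (fun j _ => ?_)
    rw [PowerSeries.coeff_C_mul, PowerSeries.coeff_X_pow_mul']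
    congr 1
    split_ifs with hjk
    · have : ((1 + X) ^ (N - 2 * j) : PowerSeries ℝ) =
          (((1 + Polynomial.X) ^ (N - 2 * j) : Polynomial ℝ) : PowerSeries ℝ) := by
        simp
      rw [this, Polynomial.coeff_coe, Polynomial.coeff_one_add_X_pow]
    · rfl
  have h0 := hco 0
  have h1 := hco 1
  have h5 := hco 5
  rw [c0] at h0
  rw [c1] at h1
  rw [c5] at h5
  have hN : 5 ≤ N := by
    by_contra hlt
    have : ∑ j ∈ Finset.range (N / 2 + 1),
        γ j * (if j ≤ 5 then ((N - 2 * j).choose (5 - j) : ℝ) else 0) = 0 := by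
      refine Finset.sum_eq_zero (fun j hj => ?_)
      rw [Finset.mem_range] at hj
      split_ifs with hj5
      · rw [Nat.choose_eq_zero_of_lt (by omega)]
        simp
      · simp
    rw [this] at h5
    norm_num at h5
  have g0 : γ 0 = 1 := by
    rw [Finset.sum_eq_single 0] at h0
    · simpa using h0.symm
    · intro j _ hj
      rw [if_neg (by omega), mul_zero]
    · intro hn
      exact absurd (Finset.mem_range.mpr (by omega)) hn
  have h1' : (N : ℝ) ≤ 4 := by
    rw [h1]
    have : γ 0 * (if 0 ≤ 1 then ((N - 2 * 0).choose (1 - 0) : ℝ) else 0) = N := by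
      rw [g0]; simp
    rw [← this]
    refine Finset.single_le_sum (f := fun j => γ j * (if j ≤ 1 then ((N - 2 * j).choose (1 - j) : ℝ) else 0))
      (fun j _ => ?_) (Finset.mem_range.mpr (by omega))
    apply mul_nonneg (hγ j)
    split_ifs <;> positivity
  have : (5 : ℝ) ≤ N := by exact_mod_cast hN
  linarith

end Pool.Agent.Results.MP_308823_co.NotGamma
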